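import Pool.Agent.W2helper94.TP.Defs

set_option autoImplicit false

open Finset

namespace Pool.Agent.W2helper94.TP

theorem monoTree_of_root {V : Type} [Finite V] {r : ℕ} (G : SimpleGraph V) (c : Sym2 V → Fin r)
    (S : Set V) (i : Fin r) (root : V) (hroot : root ∈ S)
    (h : ∀ v ∈ S, v = root ∨ (G.Adj v root ∧ c s(v, root) = i) ∨
      ∃ w ∈ S, (G.Adj v w ∧ c s(v, w) = i) ∧ (G.Adj w root ∧ c s(w, root) = i)) :
    MonoTree G c S := by
  classical
  let H : SimpleGraph S :=
    { Adj := fun u v => G.Adj u v ∧ c s((u : V), (v : V)) = i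
      symm := ⟨by
        intro u v huv
        refine ⟨huv.1.symm, ?_⟩
        rw [Sym2.eq_swap]
        exact huv.2⟩
      loopless := ⟨fun u hu => G.loopless.irrefl _ hu.1⟩ }
  have hc : H.Connected := by
    rw [SimpleGraph.connected_iff_exists_forall_reachable]
    refine ⟨⟨root, hroot⟩, ?_⟩
    rintro ⟨v, hv⟩
    rcases h v hv with h1 | h1 | ⟨w, hw, h1, h2⟩
    · subst h1
      exact SimpleGraph.Reachable.refl _
    · have : H.Adj ⟨v, hv⟩ ⟨root, hroot⟩ := h1
      exact this.symm.reachable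
    · have h3 : H.Adj ⟨v, hv⟩ ⟨w, hw⟩ := h1
      have h4 : H.Adj ⟨w, hw⟩ ⟨root, hroot⟩ := h2
      exact h4.symm.reachable.trans h3.symm.reachable
  obtain ⟨T, hTH, hT⟩ := hc.exists_isTree_le
  exact ⟨i, T, hT, fun u v huv => hTH huv⟩

theorem partInto_of_index {V : Type} {r : ℕ} (G : SimpleGraph V) (c : Sym2 V → Fin r)
    {ι : Type} [Fintype ι] (S : ι → Set V) (h1 : ∀ i, MonoTree G c (S i))
    (h2 : ∀ i j, i ≠ j → Disjoint (S i) (S j)) (h3 : ∀ v, ∃ i, v ∈ S i) :
    PartInto G c (Fintype.card ι) := by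
  classical
  let e := Fintype.equivFin ι
  refine ⟨fun i => S (e.symm i), fun i => h1 _, fun i j hij => h2 _ _ ?_, fun v => ?_⟩
  · intro h
    exact hij (e.symm.injective h)
  · obtain ⟨i, hi⟩ := h3 v
    exact ⟨e i, by simpa using hi⟩

/-- the graph -/
abbrev K (n m : ℕ) : SimpleGraph (Fin n ⊕ Fin m) := completeBipartiteGraph (Fin n) (Fin m)

/-- the colour of the edge between `a` and `b` -/
def col {n m r : ℕ} (c : Sym2 (Fin n ⊕ Fin m) → Fin r) (a : Fin n) (b : Fin m) : Fin r :=
  c s(Sum.inl a, Sum.inr b)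

/-- the vertices which avoid `y` -/
def U {n m r : ℕ} (c : Sym2 (Fin n ⊕ Fin m) → Fin r) (y : Fin m → Fin r) : Finset (Fin n) :=
  univ.filter fun a => ∀ b, col c a b ≠ y b

theorem adj_lr {n m : ℕ} (a : Fin n) (b : Fin m) : (K n m).Adj (Sum.inl a) (Sum.inr b) := by
  simp [K]

theorem adj_rl {n m : ℕ} (a : Fin n) (b : Fin m) : (K n m).Adj (Sum.inr b) (Sum.inl a) := by
  simp [K]

/-- General construction of a partition. -/
theorem partInto_general {n m r : ℕ} (hm : 0 < m) (c : Sym2 (Fin n ⊕ Fin m) → Fin r) (y : Fin m → Fin r)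
    {ι : Type} [Fintype ι] (p : Fin m → ι) (hp : Function.Surjective p) (co : ι → Fin r)
    (hco : ∀ b, y b = co (p b))
    (hroot : ∀ j, (∃ b0, ∀ b, p b = j → b = b0) ∨
      (∃ a, (∀ b, p b = j → col c a b = co j) ∧ ∀ b, col c a b = y b → p b = j)) :
    PartInto (K n m) c (Fintype.card ι + (U c y).card) := by
  classical
  have : Nonempty (Fin m) := ⟨⟨0, hm⟩⟩
  have hf : ∀ a, a ∉ U c y → ∃ b, col c a b = y b := by
    intro a ha
    simp only [U, mem_filter, mem_univ, true_and, not_forall, not_not] at ha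
    exact ha
  choose! f hf using hf
  have hcard : Fintype.card ι + (U c y).card = Fintype.card (ι ⊕ (U c y)) := by
    simp
  rw [hcard]
  let S : ι ⊕ (U c y) → Set (Fin n ⊕ Fin m) := fun x =>
    match x with
    | Sum.inl j => {v | (∃ b, p b = j ∧ v = Sum.inr b) ∨ ∃ a, a ∉ U c y ∧ p (f a) = j ∧ v = Sum.inl a}
    | Sum.inr a => {Sum.inl (a : Fin n)}
  refine partInto_of_index (K n m) c S ?_ ?_ ?_
  · rintro (j | a)
    · rcases hroot j with ⟨b0, hb0⟩ | ⟨a0, ha0, ha1⟩
      · obtain ⟨b1, hb1⟩ := hp j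
        have hb : p b0 = j := by
          rw [← hb0 b1 hb1]
          exact hb1
        refine monoTree_of_root (K n m) c _ (co j) (Sum.inr b0) (Or.inl ⟨b0, hb, rfl⟩) ?_
        rintro v (⟨b, hbj, rfl⟩ | ⟨a, haU, hja, rfl⟩)
        · left
          rw [hb0 b hbj]
        · right
          left
          refine ⟨adj_lr _ _, ?_⟩
          have h1 := hf a haU
          have h2 := hb0 _ hja
          rw [h2] at h1
          rw [hco, hb] at h1
          exact h1
      · obtain ⟨b1, hb1⟩ := hp j
        have h0 : a0 ∉ U c y := by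
          simp only [U, mem_filter, mem_univ, true_and, not_forall, not_not]
          refine ⟨b1, ?_⟩
          rw [ha0 b1 hb1, hco, hb1]
        refine monoTree_of_root (K n m) c _ (co j) (Sum.inl a0)
          (Or.inr ⟨a0, h0, ha1 _ (hf a0 h0), rfl⟩) ?_
        rintro v (⟨b, hbj, rfl⟩ | ⟨a, haU, hja, rfl⟩)
        · right
          left
          refine ⟨adj_rl _ _, ?_⟩
          rw [Sym2.eq_swap]
          exact ha0 b hbj
        · right
          right
          refine ⟨Sum.inr (f a), Or.inl ⟨f a, hja, rfl⟩, ⟨adj_lr _ _, ?_⟩, ⟨adj_rl _ _, ?_⟩⟩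
          · have h1 := hf a haU
            rw [hco, hja] at h1
            exact h1
          · rw [Sym2.eq_swap]
            exact ha0 _ hja
    · exact monoTree_of_root (K n m) c _ (c s(Sum.inl (a : Fin n), Sum.inl (a : Fin n)))
        (Sum.inl (a : Fin n)) rfl (fun v hv => Or.inl hv)
  · rintro (j | a) (j' | a') hne
    · rw [Set.disjoint_left]
      rintro v (⟨b, hb, rfl⟩ | ⟨a, ha, hj, rfl⟩) (⟨b', hb', h⟩ | ⟨a', ha', hj', h⟩)
      · apply hne
        have := Sum.inr_injective h
        subst this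
        rw [← hb, ← hb']
      · cases h
      · cases h
      · apply hne
        have := Sum.inl_injective h
        subst this
        rw [← hj, ← hj']
    · rw [Set.disjoint_left]
      rintro v (⟨b, hb, rfl⟩ | ⟨a, ha, hj, rfl⟩) h
      · cases h
      · have h2 : (Sum.inl a : Fin n ⊕ Fin m) = Sum.inl (a' : Fin n) := h
        have h3 := Sum.inl_injective h2
        rw [h3] at ha
        exact ha a'.2
    · rw [Set.disjoint_left]
      rintro v h (⟨b, hb, h'⟩ | ⟨a', ha, hj, h'⟩)
      · have h2 : v = Sum.inl (a : Fin n) := h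
        rw [h2] at h'
        cases h'
      · have h2 : v = Sum.inl (a : Fin n) := h
        rw [h2] at h'
        have h3 := Sum.inl_injective h'
        rw [← h3] at ha
        exact ha a.2
    · rw [Set.disjoint_left]
      intro v h h'
      apply hne
      have h1 : v = Sum.inl (a : Fin n) := h
      have h2 : v = Sum.inl (a' : Fin n) := h'
      rw [h1] at h2
      have h3 := Sum.inl_injective h2
      rw [Subtype.ext h3]
  · rintro (a | b)
    · by_cases ha : a ∈ U c y
      · exact ⟨Sum.inr ⟨a, ha⟩, rfl⟩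
      · exact ⟨Sum.inl (p (f a)), Or.inr ⟨a, ha, rfl, rfl⟩⟩
    · exact ⟨Sum.inl (p b), Or.inl ⟨b, rfl, rfl⟩⟩

/-- Partition into stars. -/
theorem partInto_stars {n m r : ℕ} (hm : 0 < m) (c : Sym2 (Fin n ⊕ Fin m) → Fin r) (y : Fin m → Fin r) :
    PartInto (K n m) c (m + (U c y).card) := by
  have := partInto_general hm c y (ι := Fin m) id Function.surjective_id y (fun b => rfl)
    (fun j => Or.inl ⟨j, fun b hb => hb⟩)
  simpa using this

/-- Partition if all constant types occur. -/
theorem partInto_const {n m r : ℕ} (hm : 0 < m) (c : Sym2 (Fin n ⊕ Fin m) → Fin r) (y : Fin m → Fin r)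
    (h : ∀ i, ∃ a, ∀ b, col c a b = i) :
    PartInto (K n m) c ((univ.image y).card + (U c y).card) := by
  classical
  have := partInto_general hm c y (ι := (univ.image y : Finset (Fin r)))
    (fun b => ⟨y b, mem_image_of_mem y (mem_univ b)⟩)
    (by
      rintro ⟨i, hi⟩
      obtain ⟨b, -, hb⟩ := mem_image.1 hi
      exact ⟨b, Subtype.ext hb⟩)
    (fun i => (i : Fin r)) (fun b => rfl)
    (by
      rintro ⟨i, hi⟩
      right
      obtain ⟨a, ha⟩ := h i
      refine ⟨a, fun b _ => ha b, fun b hb => ?_⟩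
      apply Subtype.ext
      show y b = i
      rw [← hb, ha b])
  rw [Fintype.card_coe] at this
  exact this

end Pool.Agent.W2helper94.TP
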