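import Mathlib

set_option autoImplicit false

/-!
# Tree partition number and tree cover number of edge coloured graphs
-/

namespace Pool.Agent.W2helper94.TP

/-- `S` is the vertex set of a monochromatic tree of the graph `G` with the edge colouring `c`: there are a colour
`i` and a tree `T` with vertex set `S` all of whose edges are edges of `G` of colour `i`. -/
def MonoTree {V : Type} {r : ℕ} (G : SimpleGraph V) (c : Sym2 V → Fin r) (S : Set V) : Prop :=
  ∃ (i : Fin r) (T : SimpleGraph S), T.IsTree ∧
    ∀ u v : S, T.Adj u v → G.Adj u v ∧ c s((u : V), (v : V)) = i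

/-- The vertex set of `G` is the union of the vertex sets of `k` monochromatic trees. -/
def CoverBy {V : Type} {r : ℕ} (G : SimpleGraph V) (c : Sym2 V → Fin r) (k : ℕ) : Prop :=
  ∃ S : Fin k → Set V, (∀ i, MonoTree G c (S i)) ∧ ∀ v, ∃ i, v ∈ S i

/-- The vertex set of `G` is the disjoint union of the vertex sets of `k` monochromatic trees. -/
def PartInto {V : Type} {r : ℕ} (G : SimpleGraph V) (c : Sym2 V → Fin r) (k : ℕ) : Prop :=
  ∃ S : Fin k → Set V, (∀ i, MonoTree G c (S i)) ∧ (∀ i j, i ≠ j → Disjoint (S i) (S j)) ∧
    ∀ v, ∃ i, v ∈ S i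

/-- The tree cover number: the least `k` such that for every colouring of the edges with `r` colours at most
`k` monochromatic trees cover the vertices. -/
noncomputable def tc {V : Type} (r : ℕ) (G : SimpleGraph V) : ℕ :=
  sInf {k | ∀ c : Sym2 V → Fin r, ∃ j ≤ k, CoverBy G c j}

/-- The tree partition number: the least `k` such that for every colouring of the edges with `r` colours the
vertex set can be partitioned into the vertex sets of at most `k` monochromatic trees. -/
noncomputable def tp {V : Type} (r : ℕ) (G : SimpleGraph V) : ℕ :=
  sInf {k | ∀ c : Sym2 V → Fin r, ∃ j ≤ k, PartInto G c j}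

end Pool.Agent.W2helper94.TP
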