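import Pool.Agent.W2helper94.TP.Upper

set_option autoImplicit false

open Finset

namespace Pool.Agent.W2helper94.TP

/-- Every partition has a `y` which is avoided by few vertices. -/
theorem lower_general {n m r k : ℕ} (c : Sym2 (Fin n ⊕ Fin m) → Fin r)
    (h : PartInto (K n m) c k) :
    ∃ y : Fin m → Fin r, (univ.image y).card + (U c y).card ≤ k := by
  classical
  obtain ⟨S, hS, hdis, hcov⟩ := h
  choose co T hT hTc using hS
  -- the tree containing a vertex
  choose p hp using hcov
  have huniq : ∀ v i, v ∈ S i → p v = i := by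
    intro v i hi
    by_contra hne
    exact (Set.disjoint_left.1 (hdis _ _ hne)) (hp v) hi
  let y : Fin m → Fin r := fun b => co (p (Sum.inr b))
  refine ⟨y, ?_⟩
  -- a vertex which avoids `y` is alone in its tree
  have halone : ∀ a ∈ U c y, ∀ v, p v = p (Sum.inl a) → v = Sum.inl a := by
    intro a ha v hv
    by_contra hne
    have hvS : v ∈ S (p (Sum.inl a)) := by
      rw [← hv]
      exact hp v
    have hcon := (hT (p (Sum.inl a))).connected
    have hreach := hcon.preconnected ⟨Sum.inl a, hp _⟩ ⟨v, hvS⟩
    obtain ⟨w⟩ := hreach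
    cases w with
    | nil => exact hne rfl
    | @cons _ u _ hadj _ =>
      have h1 := hTc _ _ _ hadj
      obtain ⟨u, hu⟩ := u
      rcases u with a' | b
      · have h2 := h1.1
        simp [K] at h2
      · simp only [U, mem_filter, mem_univ, true_and] at ha
        apply ha b
        have h3 := h1.2
        have h4 := huniq _ _ hu
        show c s(Sum.inl a, Sum.inr b) = co (p (Sum.inr b))
        rw [h4]
        exact h3
  -- choose a vertex of each colour in the image
  have hy : ∀ i : (univ.image y : Finset (Fin r)), ∃ b, y b = i := by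
    rintro ⟨i, hi⟩
    obtain ⟨b, -, hb⟩ := mem_image.1 hi
    exact ⟨b, hb⟩
  choose g hg using hy
  let φ : (univ.image y : Finset (Fin r)) ⊕ (U c y) → Fin k := fun x =>
    match x with
    | Sum.inl i => p (Sum.inr (g i))
    | Sum.inr a => p (Sum.inl (a : Fin n))
  have hφ : Function.Injective φ := by
    rintro (i | a) (i' | a') hxy
    · have h1 : p (Sum.inr (g i)) = p (Sum.inr (g i')) := hxy
      have h2 : y (g i) = y (g i') := by
        show co (p (Sum.inr (g i))) = co (p (Sum.inr (g i')))
        rw [h1]
      rw [hg, hg] at h2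
      rw [Subtype.ext h2]
    · have h1 : p (Sum.inr (g i)) = p (Sum.inl (a' : Fin n)) := hxy
      have := halone a' a'.2 _ h1
      cases this
    · have h1 : p (Sum.inl (a : Fin n)) = p (Sum.inr (g i')) := hxy
      have := halone a a.2 _ h1.symm
      cases this
    · have h1 : p (Sum.inl (a : Fin n)) = p (Sum.inl (a' : Fin n)) := hxy
      have := halone a' a'.2 _ h1
      have h2 := Sum.inl_injective this
      rw [Subtype.ext h2]
  have := Fintype.card_le_of_injective φ hφ
  rw [Fintype.card_sum, Fintype.card_coe, Fintype.card_coe, Fintype.card_fin] at this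
  exact this

/-- the types of the extremal colouring -/
def ty {r m s : ℕ} : Fin r ⊕ (Fin s × (Fin m → Fin r)) → Fin m → Fin r
  | Sum.inl i => fun _ => i
  | Sum.inr x => x.2

theorem card_extremal {r m s : ℕ} (y : Fin m → Fin r) :
    r + s * (r - 1) ^ m ≤ (univ.image y).card +
      (univ.filter fun x : Fin r ⊕ (Fin s × (Fin m → Fin r)) => ∀ b, ty x b ≠ y b).card := by
  classical
  have h1 : (univ.filter fun x : Fin r ⊕ (Fin s × (Fin m → Fin r)) => ∀ b, ty x b ≠ y b) =
      ((univ.filter fun i : Fin r => ∀ b, i ≠ y b).disjSum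
        (univ ×ˢ (univ.filter fun v : Fin m → Fin r => ∀ b, v b ≠ y b))) := by
    ext x
    rcases x with i | ⟨j, v⟩
    · rw [inl_mem_disjSum, mem_filter, mem_filter]
      simp only [mem_univ, true_and]
      exact Iff.rfl
    · rw [inr_mem_disjSum, mem_filter, mem_product, mem_filter]
      simp only [mem_univ, true_and]
      exact Iff.rfl
  rw [h1, card_disjSum, card_product, card_univ, Fintype.card_fin]
  have h2 : (univ.filter fun v : Fin m → Fin r => ∀ b, v b ≠ y b).card = (r - 1) ^ m := by
    rw [← card_avoid y]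
    congr 1
    ext v
    simp only [mem_filter, mem_univ, true_and]
    exact forall_congr' fun b => ne_comm
  rw [h2]
  have h3 : (univ.filter fun i : Fin r => ∀ b, i ≠ y b) = (univ.image y)ᶜ := by
    ext i
    simp only [mem_filter, mem_univ, true_and, mem_compl, mem_image, not_exists]
    exact forall_congr' fun b => ne_comm
  rw [h3, card_compl, Fintype.card_fin]
  have : (univ.image y).card ≤ r := by
    have := card_le_univ (univ.image y)
    simpa using this
  omega

theorem exists_colouring {n m r : ℕ} (hr : 0 < r) (hrn : r ≤ n) :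
    ∃ c : Sym2 (Fin n ⊕ Fin m) → Fin r, ∀ y : Fin m → Fin r,
      r + (n - r) / r ^ m * (r - 1) ^ m ≤ (univ.image y).card + (U c y).card := by
  classical
  set s := (n - r) / r ^ m with hs
  have hcard : Fintype.card (Fin r ⊕ (Fin s × (Fin m → Fin r))) ≤ Fintype.card (Fin n) := by
    simp only [Fintype.card_sum, Fintype.card_fin, Fintype.card_prod, Fintype.card_fun]
    have := Nat.div_mul_le_self (n - r) (r ^ m)
    rw [← hs] at this
    omega
  obtain ⟨φ⟩ := Function.Embedding.nonempty_of_card_le hcard
  let f : Fin n → Fin m → Fin r := Function.extend φ ty (fun _ _ => ⟨0, hr⟩)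
  -- a colouring of the unordered pairs
  let c0 : (Fin n ⊕ Fin m) → (Fin n ⊕ Fin m) → Fin r := fun u v =>
    match u, v with
    | Sum.inl a, Sum.inr b => f a b
    | Sum.inr b, Sum.inl a => f a b
    | _, _ => ⟨0, hr⟩
  have hsymm : ∀ u v, c0 u v = c0 v u := by
    rintro (a | b) (a' | b') <;> rfl
  refine ⟨Sym2.lift ⟨c0, hsymm⟩, fun y => ?_⟩
  have hcol : ∀ a b, col (Sym2.lift ⟨c0, hsymm⟩) a b = f a b := fun a b => rfl
  refine (card_extremal (s := s) y).trans ?_
  have h1 : ((univ.filter fun x : Fin r ⊕ (Fin s × (Fin m → Fin r)) => ∀ b, ty x b ≠ y b).map φ) ⊆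
      U (Sym2.lift ⟨c0, hsymm⟩) y := by
    intro a ha
    obtain ⟨x, hx, rfl⟩ := mem_map.1 ha
    simp only [mem_filter, mem_univ, true_and] at hx
    simp only [U, mem_filter, mem_univ, true_and]
    intro b
    rw [hcol]
    show Function.extend φ ty (fun _ _ => ⟨0, hr⟩) (φ x) b ≠ y b
    rw [φ.injective.extend_apply]
    exact hx b
  have h2 := card_le_card h1
  rw [card_map] at h2
  omega

end Pool.Agent.W2helper94.TP
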