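import Pool.Agent.W2helper94.TP.Lower

set_option autoImplicit false

open Finset

namespace Pool.Agent.W2helper94.TP

theorem tp_le {n m r k : ℕ}
    (h : ∀ c : Sym2 (Fin n ⊕ Fin m) → Fin r, ∃ j ≤ k, PartInto (K n m) c j) : tp r (K n m) ≤ k :=
  Nat.sInf_le h

/-- upper bound -/
theorem tp_upper {n m r : ℕ} (hr : 2 ≤ r) (hm : 0 < m) (hn : 2 * m * r ^ (2 * m) ≤ n) :
    r ^ m * tp r (K n m) ≤ r * r ^ m + (n - r) * (r - 1) ^ m := by
  classical
  have hN : 0 < r ^ m := Nat.pow_pos (by omega)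
  have h : tp r (K n m) ≤ (r * r ^ m + (n - r) * (r - 1) ^ m) / r ^ m := by
    apply tp_le
    intro c
    obtain ⟨k, hk, hk2⟩ := upper hr hm hn c
    refine ⟨k, ?_, hk⟩
    rw [Nat.le_div_iff_mul_le hN, mul_comm]
    exact hk2
  calc r ^ m * tp r (K n m) ≤ r ^ m * ((r * r ^ m + (n - r) * (r - 1) ^ m) / r ^ m) :=
        Nat.mul_le_mul_left _ h
    _ ≤ _ := Nat.mul_div_le _ _

/-- lower bound -/
theorem tp_lower {n m r : ℕ} (hr : 0 < r) (hm : 0 < m) (hrn : r ≤ n) :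
    r + (n - r) / r ^ m * (r - 1) ^ m ≤ tp r (K n m) := by
  classical
  have hne : {k | ∀ c : Sym2 (Fin n ⊕ Fin m) → Fin r, ∃ j ≤ k, PartInto (K n m) c j}.Nonempty := by
    refine ⟨m + n, fun c => ?_⟩
    refine ⟨_, ?_, partInto_stars hm c (fun _ => ⟨0, hr⟩)⟩
    have := card_le_univ (U c (fun _ : Fin m => (⟨0, hr⟩ : Fin r)))
    rw [Fintype.card_fin] at this
    omega
  have hmem := Nat.sInf_mem hne
  obtain ⟨c, hc⟩ := exists_colouring (n := n) (m := m) hr hrn
  obtain ⟨j, hj, hpart⟩ := hmem c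
  obtain ⟨y, hy⟩ := lower_general c hpart
  exact (hc y).trans (hy.trans hj)

theorem coverBy_of_index {V : Type} {r : ℕ} (G : SimpleGraph V) (c : Sym2 V → Fin r)
    {ι : Type} [Fintype ι] (S : ι → Set V) (h1 : ∀ i, MonoTree G c (S i))
    (h3 : ∀ v, ∃ i, v ∈ S i) :
    CoverBy G c (Fintype.card ι) := by
  classical
  let e := Fintype.equivFin ι
  refine ⟨fun i => S (e.symm i), fun i => h1 _, fun v => ?_⟩
  obtain ⟨i, hi⟩ := h3 v
  exact ⟨e i, by simpa using hi⟩

/-- The stars of one vertex and `m - 1` single vertices cover the graph. -/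
theorem tc_le {n m r : ℕ} (hm : 0 < m) : tc r (K n m) ≤ r + (m - 1) := by
  classical
  refine Nat.sInf_le fun c => ⟨r + (m - 1), le_rfl, ?_⟩
  let b0 : Fin m := ⟨0, hm⟩
  have hcard : r + (m - 1) = Fintype.card (Fin r ⊕ {b : Fin m // b ≠ b0}) := by
    rw [Fintype.card_sum, Fintype.card_fin, Fintype.card_subtype_compl, Fintype.card_fin]
    simp
  rw [hcard]
  let S : Fin r ⊕ {b : Fin m // b ≠ b0} → Set (Fin n ⊕ Fin m) := fun x =>
    match x with
    | Sum.inl i => {v | v = Sum.inr b0 ∨ ∃ a, col c a b0 = i ∧ v = Sum.inl a}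
    | Sum.inr b => {Sum.inr (b : Fin m)}
  refine coverBy_of_index (K n m) c S ?_ ?_
  · rintro (i | b)
    · refine monoTree_of_root (K n m) c _ i (Sum.inr b0) (Or.inl rfl) ?_
      rintro v (rfl | ⟨a, ha, rfl⟩)
      · exact Or.inl rfl
      · exact Or.inr (Or.inl ⟨adj_lr _ _, ha⟩)
    · exact monoTree_of_root (K n m) c _ (c s(Sum.inr b0, Sum.inr b0))
        (Sum.inr (b : Fin m)) rfl (fun v hv => Or.inl hv)
  · rintro (a | b)
    · exact ⟨Sum.inl (col c a b0), Or.inr ⟨a, rfl, rfl⟩⟩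
    · by_cases hb : b = b0
      · rcases Nat.eq_zero_or_pos r with hr | hr
        · exact absurd (c s(Sum.inr b, Sum.inr b)).2 (by omega)
        · exact ⟨Sum.inl ⟨0, hr⟩, Or.inl (by rw [hb])⟩
      · exact ⟨Sum.inr ⟨b, hb⟩, rfl⟩

/-- Main theorem. -/
theorem main {n m r : ℕ} (hr : 2 ≤ r) (hm : 0 < m) (hn : 2 * m * r ^ (2 * m) ≤ n) :
    ((r + (n - r) / r ^ m * (r - 1) ^ m : ℕ) : ℝ) ≤ tp r (K n m) ∧
    (tp r (K n m) : ℝ) ≤ r + (n - r) * (((r : ℝ) - 1) / r) ^ m ∧
    (∀ s : ℕ, n = r + s * r ^ m → tp r (K n m) = r + s * (r - 1) ^ m) ∧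
    tc r (K n m) ≤ r + (m - 1) ∧ tc r (K n m) < tp r (K n m) := by
  have hrm : r ≤ r ^ m := by
    calc r = r ^ 1 := (pow_one r).symm
      _ ≤ r ^ m := Nat.pow_le_pow_right (by omega) (by omega)
  have hN2 : r ^ (2 * m) = r ^ m * r ^ m := by
    rw [two_mul, pow_add]
  have hN : 0 < r ^ m := Nat.pow_pos (by omega)
  have hP : 0 < (r - 1) ^ m := Nat.pow_pos (by omega)
  rw [hN2] at hn
  have hn4 : 4 * m * r ^ m ≤ n := by
    refine le_trans ?_ hn
    calc 4 * m * r ^ m = 2 * m * (2 * r ^ m) := by ring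
      _ ≤ 2 * m * (r ^ m * r ^ m) := by
        apply Nat.mul_le_mul_left
        apply Nat.mul_le_mul_right
        omega
  have hrn : r ≤ n := by
    refine le_trans hrm (le_trans ?_ hn4)
    exact Nat.le_mul_of_pos_left _ (by omega)
  have hlow := tp_lower (n := n) (m := m) (r := r) (by omega) hm hrn
  have hup := tp_upper (n := n) hr hm (by rw [hN2]; exact hn)
  have htc := tc_le (n := n) (r := r) hm
  refine ⟨by exact_mod_cast hlow, ?_, ?_, htc, ?_⟩
  · have h1 : ((r : ℝ) ^ m) * tp r (K n m) ≤ r * (r : ℝ) ^ m + (n - r) * ((r : ℝ) - 1) ^ m := by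
      have h2 : ((r ^ m * tp r (K n m) : ℕ) : ℝ) ≤ ((r * r ^ m + (n - r) * (r - 1) ^ m : ℕ) : ℝ) := by
        exact_mod_cast hup
      push_cast [Nat.cast_sub hrn, Nat.cast_sub (by omega : 1 ≤ r)] at h2
      exact h2
    have hr0 : (0 : ℝ) < r := by
      have : 0 < r := by omega
      exact_mod_cast this
    have hpos : (0 : ℝ) < (r : ℝ) ^ m := pow_pos hr0 m
    rw [div_pow]
    have h3 : (tp r (K n m) : ℝ) ≤ (r * (r : ℝ) ^ m + (n - r) * ((r : ℝ) - 1) ^ m) / (r : ℝ) ^ m := by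
      rw [le_div_iff₀ hpos, mul_comm]
      exact h1
    refine h3.trans (le_of_eq ?_)
    field_simp
  · intro s hs
    apply le_antisymm
    · have h1 : r ^ m * tp r (K n m) ≤ r ^ m * (r + s * (r - 1) ^ m) := by
        refine hup.trans (le_of_eq ?_)
        have : n - r = s * r ^ m := by omega
        rw [this]
        ring
      exact Nat.le_of_mul_le_mul_left h1 hN
    · have : (n - r) / r ^ m = s := by
        have : n - r = s * r ^ m := by omega
        rw [this, Nat.mul_div_cancel _ hN]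
      rw [this] at hlow
      exact hlow
  · have h1 : m + 1 ≤ (n - r) / r ^ m := by
      rw [Nat.le_div_iff_mul_le hN]
      have : (m + 1) * r ^ m + r ≤ n := by
        refine le_trans ?_ hn4
        nlinarith
      omega
    have h2 : (n - r) / r ^ m ≤ (n - r) / r ^ m * (r - 1) ^ m := Nat.le_mul_of_pos_right _ hP
    omega

end Pool.Agent.W2helper94.TP
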