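import Pool.Agent.W2helper94.TP.Basic

set_option autoImplicit false

open Finset

namespace Pool.Agent.W2helper94.TP

/-- number of the functions which avoid a given function -/
theorem card_avoid {m r : ℕ} (v : Fin m → Fin r) :
    (univ.filter fun y : Fin m → Fin r => ∀ b, v b ≠ y b).card = (r - 1) ^ m := by
  classical
  have h : (univ.filter fun y : Fin m → Fin r => ∀ b, v b ≠ y b) =
      Fintype.piFinset (fun b => univ.erase (v b)) := by
    ext y
    simp only [mem_filter, mem_univ, true_and, Fintype.mem_piFinset, mem_erase, and_true]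
    exact forall_congr' fun b => ne_comm
  rw [h, Fintype.card_piFinset]
  simp

theorem sum_card_U {n m r : ℕ} (c : Sym2 (Fin n ⊕ Fin m) → Fin r) :
    ∑ y : Fin m → Fin r, (U c y).card = n * (r - 1) ^ m := by
  classical
  have h : ∀ y : Fin m → Fin r, (U c y).card = ∑ a : Fin n, if ∀ b, col c a b ≠ y b then 1 else 0 := by
    intro y
    rw [U, card_filter]
  simp_rw [h]
  rw [sum_comm]
  have h2 : ∀ a : Fin n, (∑ y : Fin m → Fin r, if ∀ b, col c a b ≠ y b then 1 else 0) = (r - 1) ^ m := by
    intro a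
    rw [← card_avoid (fun b => col c a b), card_filter]
  simp_rw [h2]
  simp

theorem sum_card_image {m r : ℕ} :
    ∑ y : Fin m → Fin r, (univ.image y).card + r * (r - 1) ^ m = r * r ^ m := by
  classical
  have h : ∀ y : Fin m → Fin r, (univ.image y).card = ∑ i : Fin r, if i ∈ univ.image y then 1 else 0 := by
    intro y
    rw [← card_filter]
    congr 1
    ext i
    simp
  simp_rw [h]
  rw [sum_comm]
  have h2 : ∀ i : Fin r, (∑ y : Fin m → Fin r, if i ∈ univ.image y then 1 else 0) + (r - 1) ^ m = r ^ m := by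
    intro i
    rw [← card_avoid (fun _ : Fin m => i), card_filter, ← sum_add_distrib]
    have : ∀ y : Fin m → Fin r, ((if i ∈ univ.image y then 1 else 0) +
        (if ∀ b, i ≠ y b then 1 else 0)) = 1 := by
      intro y
      by_cases hi : i ∈ univ.image y
      · have : ¬ ∀ b, i ≠ y b := by
          intro h
          obtain ⟨b, -, hb⟩ := mem_image.1 hi
          exact h b hb.symm
        rw [if_pos hi, if_neg this]
      · have : ∀ b, i ≠ y b := by
          intro b hb
          exact hi (mem_image.2 ⟨b, mem_univ b, hb.symm⟩)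
        rw [if_neg hi, if_pos this]
    simp_rw [this]
    simp
  have h3 : ∑ i : Fin r, ((∑ y : Fin m → Fin r, if i ∈ univ.image y then 1 else 0) + (r - 1) ^ m) =
      ∑ _i : Fin r, r ^ m := by
    exact sum_congr rfl fun i _ => h2 i
  rw [sum_add_distrib] at h3
  simpa using h3

/-- the averaging argument -/
theorem exists_good {n m r : ℕ} (hrn : r ≤ n) (c : Sym2 (Fin n ⊕ Fin m) → Fin r) (hr : 0 < r) :
    ∃ y : Fin m → Fin r, r ^ m * ((univ.image y).card + (U c y).card) ≤
      r * r ^ m + (n - r) * (r - 1) ^ m := by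
  classical
  by_contra hcon
  push Not at hcon
  have hne : (univ : Finset (Fin m → Fin r)).Nonempty := ⟨fun _ => ⟨0, hr⟩, mem_univ _⟩
  have h1 : ∑ _y : Fin m → Fin r, (r * r ^ m + (n - r) * (r - 1) ^ m) <
      ∑ y : Fin m → Fin r, r ^ m * ((univ.image y).card + (U c y).card) :=
    sum_lt_sum_of_nonempty hne fun y _ => hcon y
  simp only [sum_const, card_univ, Fintype.card_fun, Fintype.card_fin, smul_eq_mul] at h1
  rw [← mul_sum, sum_add_distrib, sum_card_U] at h1
  have h2 := sum_card_image (m := m) (r := r)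
  have h3 : r * r ^ m + (n - r) * (r - 1) ^ m <
      ∑ y : Fin m → Fin r, (univ.image y).card + n * (r - 1) ^ m := by
    exact Nat.lt_of_mul_lt_mul_left h1
  have h4 : n * (r - 1) ^ m = (n - r) * (r - 1) ^ m + r * (r - 1) ^ m := by
    rw [← add_mul]
    congr 1
    omega
  omega

/-- weights -/
def wt {r : ℕ} (i j : Fin r) : ℤ := if j = i then -((r : ℤ) - 2) else 1

theorem sum_wt {r : ℕ} (i : Fin r) : ∑ j : Fin r, wt i j = 1 := by
  have : ∀ j : Fin r, wt i j = 1 + if j = i then -((r : ℤ) - 1) else 0 := by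
    intro j
    unfold wt
    split_ifs <;> ring
  simp_rw [this]
  rw [sum_add_distrib, sum_ite_eq']
  simp

theorem sum_wt_ne {r : ℕ} (i v : Fin r) :
    ∑ j : Fin r, (if v ≠ j then wt i j else 0) = if v = i then (r : ℤ) - 1 else 0 := by
  have h1 : ∑ j : Fin r, (if v ≠ j then wt i j else 0) = ∑ j : Fin r, (wt i j - if v = j then wt i j else 0) := by
    apply sum_congr rfl
    intro j _
    by_cases h : v = j <;> simp [h]
  rw [h1, sum_sub_distrib, sum_wt, sum_ite_eq]
  simp only [mem_univ, if_true]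
  unfold wt
  split_ifs <;> ring

/-- no vertex has the constant type `i`: some `y` is avoided by few vertices -/
theorem weighted_zero {n m r : ℕ} (c : Sym2 (Fin n ⊕ Fin m) → Fin r) (i : Fin r)
    (h : ∀ a, ∃ b, col c a b ≠ i) :
    ∑ y : Fin m → Fin r, (∏ b, wt i (y b)) * ((U c y).card : ℤ) = 0 := by
  classical
  have h1 : ∀ y : Fin m → Fin r, (∏ b, wt i (y b)) * ((U c y).card : ℤ) =
      ∑ a : Fin n, ∏ b, (if col c a b ≠ y b then wt i (y b) else 0) := by
    intro y
    have : ((U c y).card : ℤ) = ∑ a : Fin n, if ∀ b, col c a b ≠ y b then (1 : ℤ) else 0 := by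
      rw [U, card_filter]
      push_cast
      rfl
    rw [this, mul_sum]
    apply sum_congr rfl
    intro a _
    by_cases ha : ∀ b, col c a b ≠ y b
    · rw [if_pos ha, mul_one]
      apply prod_congr rfl
      intro b _
      rw [if_pos (ha b)]
    · rw [if_neg ha, mul_zero]
      push Not at ha
      obtain ⟨b, hb⟩ := ha
      symm
      apply prod_eq_zero (mem_univ b)
      simp [hb]
  simp_rw [h1]
  rw [sum_comm]
  apply sum_eq_zero
  intro a _
  have h2 : ∑ y : Fin m → Fin r, ∏ b, (if col c a b ≠ y b then wt i (y b) else 0) =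
      ∏ b, ∑ j : Fin r, (if col c a b ≠ j then wt i j else 0) := by
    rw [Finset.prod_univ_sum, Fintype.piFinset_univ]
  rw [h2]
  obtain ⟨b, hb⟩ := h a
  apply prod_eq_zero (mem_univ b)
  rw [sum_wt_ne, if_neg hb]

theorem wt_prod_ge {m r : ℕ} (hr : 2 ≤ r) (i : Fin r) (y : Fin m → Fin r) :
    -(((r - 1 : ℕ) : ℤ) ^ m) ≤ ∏ b, wt i (y b) := by
  have h : |∏ b, wt i (y b)| ≤ ((r - 1 : ℕ) : ℤ) ^ m := by
    rw [abs_prod]
    calc ∏ b, |wt i (y b)| ≤ ∏ _b : Fin m, ((r - 1 : ℕ) : ℤ) := by
          apply prod_le_prod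
          · intro b _
            exact abs_nonneg _
          · intro b _
            unfold wt
            have h2 : (2 : ℤ) ≤ r := by exact_mod_cast hr
            split_ifs
            · rw [abs_neg, abs_of_nonneg (by linarith)]
              push_cast [Nat.cast_sub (by omega : 1 ≤ r)]
              linarith
            · rw [abs_one]
              push_cast [Nat.cast_sub (by omega : 1 ≤ r)]
              linarith
      _ = ((r - 1 : ℕ) : ℤ) ^ m := by simp
  exact (abs_le.1 h).1

theorem sum_wt_prod {m r : ℕ} (i : Fin r) :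
    ∑ y : Fin m → Fin r, ∏ b, wt i (y b) = 1 := by
  have h2 : ∑ y : Fin m → Fin r, ∏ b, wt i (y b) = ∏ _b : Fin m, ∑ j : Fin r, wt i j := by
    rw [Finset.prod_univ_sum, Fintype.piFinset_univ]
  rw [h2]
  simp [sum_wt]

theorem exists_low {n m r : ℕ} (hr : 2 ≤ r) (c : Sym2 (Fin n ⊕ Fin m) → Fin r) (i : Fin r)
    (h : ∀ a, ∃ b, col c a b ≠ i) :
    ∃ y : Fin m → Fin r, (U c y).card * (1 + (r - 1) ^ m * r ^ m) ≤ n * ((r - 1) ^ m) ^ 2 := by
  classical
  obtain ⟨y0, -, hy0⟩ := exists_min_image (univ : Finset (Fin m → Fin r)) (fun y => (U c y).card)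
    ⟨fun _ => ⟨0, by omega⟩, mem_univ _⟩
  refine ⟨y0, ?_⟩
  set L := (U c y0).card with hL
  set P := (r - 1) ^ m with hP
  have h1 : 0 ≤ ∑ y : Fin m → Fin r, ((∏ b, wt i (y b)) + (P : ℤ)) * (((U c y).card : ℤ) - L) := by
    apply sum_nonneg
    intro y _
    apply mul_nonneg
    · have := wt_prod_ge hr i y
      rw [hP]
      push_cast
      linarith
    · have := hy0 y (mem_univ y)
      have : (L : ℤ) ≤ ((U c y).card : ℤ) := by exact_mod_cast this
      linarith
  have h2 : ∑ y : Fin m → Fin r, ((∏ b, wt i (y b)) + (P : ℤ)) * (((U c y).card : ℤ) - L) =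
      (∑ y : Fin m → Fin r, (∏ b, wt i (y b)) * ((U c y).card : ℤ)) +
      P * (∑ y : Fin m → Fin r, ((U c y).card : ℤ)) - L * (∑ y : Fin m → Fin r, ∏ b, wt i (y b)) -
      ∑ _y : Fin m → Fin r, (P * L : ℤ) := by
    rw [mul_sum, mul_sum, ← sum_add_distrib, ← sum_sub_distrib, ← sum_sub_distrib]
    apply sum_congr rfl
    intro y _
    ring
  rw [h2, weighted_zero c i h, sum_wt_prod] at h1
  have h3 : ∑ y : Fin m → Fin r, ((U c y).card : ℤ) = (n : ℤ) * P := by
    have := sum_card_U c
    rw [← hP] at this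
    exact_mod_cast this
  rw [h3] at h1
  simp only [sum_const, card_univ, Fintype.card_fun, Fintype.card_fin, nsmul_eq_mul] at h1
  have h4 : (L : ℤ) * (1 + P * (r : ℤ) ^ m) ≤ n * (P : ℤ) ^ 2 := by
    push_cast at h1
    nlinarith [h1]
  exact_mod_cast h4

theorem upper {n m r : ℕ} (hr : 2 ≤ r) (hm : 0 < m) (hn : 2 * m * r ^ (2 * m) ≤ n)
    (c : Sym2 (Fin n ⊕ Fin m) → Fin r) :
    ∃ k, PartInto (K n m) c k ∧ r ^ m * k ≤ r * r ^ m + (n - r) * (r - 1) ^ m := by
  classical
  have hrm : r ≤ r ^ (2 * m) := by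
    calc r = r ^ 1 := (pow_one r).symm
      _ ≤ r ^ (2 * m) := Nat.pow_le_pow_right (by omega) (by omega)
  have hrn : r ≤ n := by
    calc r ≤ r ^ (2 * m) := hrm
      _ ≤ 2 * m * r ^ (2 * m) := Nat.le_mul_of_pos_left _ (by omega)
      _ ≤ n := hn
  by_cases h : ∀ i, ∃ a, ∀ b, col c a b = i
  · obtain ⟨y, hy⟩ := exists_good hrn c (by omega)
    exact ⟨_, partInto_const hm c y h, hy⟩
  · push Not at h
    obtain ⟨i, hi⟩ := h
    obtain ⟨y, hy⟩ := exists_low hr c i hi
    refine ⟨_, partInto_stars hm c y, ?_⟩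
    set L := (U c y).card
    set P := (r - 1) ^ m with hP
    set N := r ^ m with hN
    have hN2 : r ^ (2 * m) = N ^ 2 := by
      rw [hN, ← pow_mul, mul_comm]
    rw [hN2] at hn
    have hP1 : 1 ≤ P := Nat.one_le_pow _ _ (by omega)
    have hN1 : 1 ≤ N := Nat.one_le_pow _ _ (by omega)
    have hPN : P ≤ N := Nat.pow_le_pow_left (by omega) m
    have key : N * (m + L) ≤ n * P := by
      by_cases hL : m * N * P ≤ L
      · -- P (n P - N L) ≥ L
        have h1 : P * (N * (m + L)) ≤ P * (n * P) := by nlinarith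
        exact Nat.le_of_mul_le_mul_left h1 (by omega)
      · push Not at hL
        have h1 : N * L ≤ N * (m * N * P) := Nat.mul_le_mul_left _ hL.le
        have h2 : (2 * m * N ^ 2) * P ≤ n * P := Nat.mul_le_mul_right _ hn
        have h3 : N * m ≤ m * N ^ 2 * P := by
          calc N * m = m * N * 1 := by ring
            _ ≤ m * N * (N * P) := Nat.mul_le_mul_left _ (by nlinarith)
            _ = m * N ^ 2 * P := by ring
        nlinarith
    have h5 : n * P ≤ r * N + (n - r) * P := by
      have : n * P = r * P + (n - r) * P := by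
        rw [← add_mul]
        congr 1
        omega
      rw [this]
      have := Nat.mul_le_mul_left r hPN
      omega
    omega

end Pool.Agent.W2helper94.TP
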